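import Pool.Agent.Y34.CH.Main

/-!
# Contractible hypersurfaces with prescribed isolated singularities

Let `g_1, ..., g_r` be any quasihomogeneous polynomials in `n - 2 ≥ 1` variables, each with an
isolated singularity at the origin and no other singular point, and let `c_1, ..., c_r` be different
complex numbers. With the Lagrange polynomials `ℓ_j` of the `c_j`, the hypersurface
`x_0 ∏ (x_1 - c_j) = ∑ ℓ_j(x_1) g_j(x_2, ..., x_{n-1})` of `ℂⁿ` is irreducible and contractible and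
its singular points are exactly the `r` points `(0, c_j, 0, ..., 0)`; in suitable local coordinates
at the `j`-th of them its equation is `u v = g_j(z)`. If `r ≥ 2` it is not isomorphic, even as an
abstract variety, to a hypersurface with a quasihomogeneous equation.
-/

set_option autoImplicit false

namespace Pool.Agent.Results.MP_aa2e78_ag.PrescribedSingularities

open MvPolynomial
open Pool.Agent.Y34.CH
open Pool.Agent.Results.MP_aa2e78_ag.NotQuasihomogeneous

lemma sumsq_qh (m : ℕ) :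
    IsQuasihomogeneous (∑ i : Fin (m + 1), X i ^ 2 : MvPolynomial (Fin (m + 1)) ℂ) := by
  refine ⟨fun _ => 1, fun _ => one_pos, 2, fun t _ x => ?_⟩
  simp only [map_sum, map_pow, eval_X, pow_one, mul_pow, ← Finset.mul_sum]
  norm_cast

lemma sumsq_sing (m : ℕ) (z : Fin (m + 1) → ℂ) :
    IsSingularPt (∑ i : Fin (m + 1), X i ^ 2 : MvPolynomial (Fin (m + 1)) ℂ) z ↔ z = 0 := by
  have hd : ∀ k : Fin (m + 1), eval z (pderiv k (∑ i : Fin (m + 1), X i ^ 2 :
      MvPolynomial (Fin (m + 1)) ℂ)) = 2 * z k := by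
    intro k
    rw [map_sum, map_sum, Finset.sum_eq_single k]
    · rw [Derivation.leibniz_pow, pderiv_X_self]; simp
    · intro i _ hi
      rw [Derivation.leibniz_pow, pderiv_X_of_ne hi]; simp
    · intro h; exact absurd (Finset.mem_univ k) h
  constructor
  · rintro ⟨_, h⟩
    funext k
    have := h k
    rw [hd] at this
    simpa using this
  · rintro rfl
    exact ⟨by simp, fun k => by rw [hd]; simp⟩

/-- **Contractible hypersurfaces with prescribed isolated singularities, none of them isomorphic to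
a quasihomogeneous one.** -/
theorem result :
    -- the general construction
    (∀ (m r : ℕ), 0 < r → ∀ c : Fin r → ℂ, Function.Injective c →
      ∀ g : Fin r → MvPolynomial (Fin (m + 1)) ℂ,
      (∀ j, IsQuasihomogeneous (g j)) → (∀ j z, IsSingularPt (g j) z ↔ z = 0) →
      ∃ p : MvPolynomial (Fin (m + 3)) ℂ,
        Irreducible p ∧
        ContractibleSpace {x : Fin (m + 3) → ℂ // eval x p = 0} ∧
        {a | IsSingularPt p a} = Set.range (fun j => (Pi.single 1 (c j) : Fin (m + 3) → ℂ)) ∧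
        {a | IsSingularPt p a}.ncard = r ∧
        (∀ a, IsSingularPt p a → IsIsolatedSingularPt p a) ∧
        (∀ j, ∃ v : MvPolynomial (Fin (m + 3)) ℂ,
          p = (X 1 - C (c j)) * v - rename (fun i : Fin (m + 1) => i.succ.succ) (g j) ∧
          eval (Pi.single 1 (c j) : Fin (m + 3) → ℂ) v = 0 ∧
          eval (Pi.single 1 (c j) : Fin (m + 3) → ℂ) (pderiv 0 v) ≠ 0) ∧
        (∀ q : MvPolynomial (Fin (m + 3)) ℂ, Nonempty (CoordRing p ≃ₐ[ℂ] CoordRing q) →
          {b | IsSingularPt q b}.ncard = r ∧ (2 ≤ r → ¬ IsQuasihomogeneous q)) ∧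
        (2 ≤ r → ∀ Φ : MvPolynomial (Fin (m + 3)) ℂ ≃ₐ[ℂ] MvPolynomial (Fin (m + 3)) ℂ,
          ¬ IsQuasihomogeneous (Φ p))) ∧
    -- the answer to the question in every dimension, with every number of singular points
    (∀ n : ℕ, 3 ≤ n → ∀ r : ℕ, 2 ≤ r → ∃ p : MvPolynomial (Fin n) ℂ,
      Irreducible p ∧
      ContractibleSpace {x : Fin n → ℂ // eval x p = 0} ∧
      (∃ a, IsIsolatedSingularPt p a) ∧
      {a | IsSingularPt p a}.ncard = r ∧
      (∀ a, IsSingularPt p a → IsIsolatedSingularPt p a) ∧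
      ∀ Φ : MvPolynomial (Fin n) ℂ ≃ₐ[ℂ] MvPolynomial (Fin n) ℂ,
        ¬ IsQuasihomogeneous (Φ p)) := by
  have main : ∀ (m r : ℕ), 0 < r → ∀ c : Fin r → ℂ, Function.Injective c →
      ∀ g : Fin r → MvPolynomial (Fin (m + 1)) ℂ,
      (∀ j, IsQuasihomogeneous (g j)) → (∀ j z, IsSingularPt (g j) z ↔ z = 0) →
      ∃ p : MvPolynomial (Fin (m + 3)) ℂ,
        Irreducible p ∧
        ContractibleSpace {x : Fin (m + 3) → ℂ // eval x p = 0} ∧
        {a | IsSingularPt p a} = Set.range (fun j => (Pi.single 1 (c j) : Fin (m + 3) → ℂ)) ∧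
        {a | IsSingularPt p a}.ncard = r ∧
        (∀ a, IsSingularPt p a → IsIsolatedSingularPt p a) ∧
        (∀ j, ∃ v : MvPolynomial (Fin (m + 3)) ℂ,
          p = (X 1 - C (c j)) * v - rename (fun i : Fin (m + 1) => i.succ.succ) (g j) ∧
          eval (Pi.single 1 (c j) : Fin (m + 3) → ℂ) v = 0 ∧
          eval (Pi.single 1 (c j) : Fin (m + 3) → ℂ) (pderiv 0 v) ≠ 0) ∧
        (∀ q : MvPolynomial (Fin (m + 3)) ℂ, Nonempty (CoordRing p ≃ₐ[ℂ] CoordRing q) →
          {b | IsSingularPt q b}.ncard = r ∧ (2 ≤ r → ¬ IsQuasihomogeneous q)) ∧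
        (2 ≤ r → ∀ Φ : MvPolynomial (Fin (m + 3)) ℂ ≃ₐ[ℂ] MvPolynomial (Fin (m + 3)) ℂ,
          ¬ IsQuasihomogeneous (Φ p)) := by
    intro m r hr c hc g hg hs
    have hdata : ∀ j, ∃ w : Fin (m + 1) → ℕ, (∀ i, 0 < w i) ∧ ∃ d : ℕ, 0 < d ∧
        ∀ (t : ℂ) z, eval (fun i => t ^ w i * z i) (g j) = t ^ d * eval z (g j) :=
      fun j => qh_nat (hg j) ((hs j 0).mpr rfl).1 (g_ne hs j)
    choose w hw d hd hq using hdata
    have hcard := sing_ncard (m := m) hc hs
    have hiso : ∀ q : MvPolynomial (Fin (m + 3)) ℂ,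
        Nonempty (CoordRing (PP c g) ≃ₐ[ℂ] CoordRing q) →
          {b | IsSingularPt q b}.ncard = r ∧ (2 ≤ r → ¬ IsQuasihomogeneous q) := by
      rintro q ⟨Ψ⟩
      have h1 : {b | IsSingularPt q b}.ncard = r := (ncard_sing_eq Ψ).trans hcard
      exact ⟨h1, fun h2 => not_qh_of_ncard (by omega)⟩
    exact ⟨PP c g, irreducible_PP hc hs, contractible_PP hr hc hw hd hq, sing_set' hc hs, hcard,
      isolated hc hs, local_eq hc hs, hiso,
      fun h2 Φ => (hiso _ (iso_of_aut (PP c g) Φ)).2 h2⟩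
  refine ⟨main, ?_⟩
  intro n hn r hr
  obtain ⟨m, rfl⟩ : ∃ m, n = m + 3 := ⟨n - 3, by omega⟩
  obtain ⟨p, h1, h2, h3, h4, h5, -, -, h8⟩ := main m r (by omega) (fun j => ((j : ℕ) : ℂ))
    (fun i j h => Fin.ext (Nat.cast_injective h)) (fun _ => ∑ i : Fin (m + 1), X i ^ 2)
    (fun _ => sumsq_qh m) (fun _ => sumsq_sing m)
  refine ⟨p, h1, h2, ?_, h4, h5, h8 hr⟩
  have h6 : {a | IsSingularPt p a}.Nonempty := by
    rw [h3]
    exact ⟨_, ⟨0, by omega⟩, rfl⟩
  obtain ⟨a, ha⟩ := h6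
  exact ⟨a, h5 a ha⟩

end Pool.Agent.Results.MP_aa2e78_ag.PrescribedSingularities
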